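import Pool.Agent.Helper70.EH.Goals

/-! # Project EH, packet PB -/

set_option autoImplicit false

namespace Pool.Agent.Helper9.EH.PB

open Pool.Agent.Helper70.KN Pool.Agent.Helper70.EQ Pool.Agent.Helper70.EH

theorem T1_nonneg {N : ℕ} (V : Finset (Fin N → ℕ)) (k : ℕ) : 0 ≤ T V k := by
  unfold T X W
  positivity

theorem t (hLB : Pool.Agent.Helper70.EQ.G_LB) (hUB : Pool.Agent.Helper70.EQ.G_UB)
    (hML : Pool.Agent.Helper70.EQ.G_ML) : Pool.Agent.Helper70.EH.G_PB := by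
  intro N r k V c hk hN hV hc
  have hc0 : (0 : ℝ) < c := by linarith
  have hT : 0 ≤ T V 1 := T1_nonneg V 1
  have key : ∀ J ∈ Finset.univ.filter (fun J : Finset (Fin r) => J.Nonempty),
      (N.factorial : ℝ) * ((-1) ^ (r - J.card) * genus (mult (∑ i ∈ J, k i) V)) ≤
      (-1) ^ (r - J.card) * (∑ i ∈ J, (k i : ℝ)) ^ N * T V 0 -
        (N * ((-1) ^ (r - J.card) * (∑ i ∈ J, (k i : ℝ)) ^ (N - 1)) -
          (∑ i ∈ J, (k i : ℝ)) ^ (N - 1)) / 2 * T V 1 +
        ((N : ℝ) - 1) ^ 3 / (8 * c) * ((∑ i ∈ J, (k i : ℝ)) ^ (N - 2)) * T V 1 := by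
    intro J hJ
    have hJn : J.Nonempty := (Finset.mem_filter.mp hJ).2
    obtain ⟨i0, hi0⟩ := hJn
    have hj1 : 1 ≤ ∑ i ∈ J, k i :=
      (hk i0).trans (Finset.single_le_sum (f := k) (fun i _ => Nat.zero_le _) hi0)
    have hcast : (∑ i ∈ J, (k i : ℝ)) = ((∑ i ∈ J, k i : ℕ) : ℝ) := by push_cast; rfl
    rw [hcast]
    generalize (∑ i ∈ J, k i) = j at hj1 ⊢
    have hjr : (1 : ℝ) ≤ j := by exact_mod_cast hj1
    obtain ⟨hC, hTh, hTk⟩ := hML N V j hj1 hV.1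
    have t0 := hTk 0 (by omega)
    have t1 := hTk 1 (by omega)
    rw [Nat.sub_zero] at t0
    have lb := hLB N (by omega) (mult j V) hC
    have ub := hUB N (mult j V) (j * c) hN (hTh c hV) (by nlinarith)
    rw [t0, t1] at lb ub
    have hp : (j : ℝ) ^ (N - 1) = j * (j : ℝ) ^ (N - 2) := by
      rw [← pow_succ']
      congr 1
      omega
    have hq : ((N : ℝ) - 1) ^ 3 / (8 * (j * c)) * ((j : ℝ) ^ (N - 1) * T V 1) =
        ((N : ℝ) - 1) ^ 3 / (8 * c) * ((j : ℝ) ^ (N - 2) * T V 1) := by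
      rw [hp]
      field_simp
    rw [hq] at ub
    have hN1 : (0 : ℝ) ≤ (N : ℝ) - 1 := by
      have : (3 : ℝ) ≤ N := by exact_mod_cast hN
      linarith
    have hnn : 0 ≤ ((N : ℝ) - 1) ^ 3 / (8 * c) * ((j : ℝ) ^ (N - 2) * T V 1) := by positivity
    rcases Nat.even_or_odd (r - J.card) with h | h
    · rw [h.neg_one_pow]
      nlinarith
    · rw [h.neg_one_pow]
      nlinarith
  unfold genusH
  rw [Finset.mul_sum]
  refine (Finset.sum_le_sum key).trans (le_of_eq ?_)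
  unfold ak bk
  simp only [Finset.sum_add_distrib, Finset.sum_sub_distrib, Finset.mul_sum, Finset.sum_mul, Finset.sum_div, sub_mul, sub_div]

end Pool.Agent.Helper9.EH.PB
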