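import Pool.Agent.Helper70.EH.Goals4

/-! Project EH, packet UA: averages over the sets with `t` elements. -/

set_option autoImplicit false

namespace Pool.Agent.Helper9.EH.UA

open Finset

theorem count {N : ℕ} (t : ℕ) (P : Finset (Fin N)) (hP : P.card ≤ t) :
    (((univ : Finset (Fin N)).powersetCard t).filter (fun S => P ⊆ S)).card =
      (N - P.card).choose (t - P.card) := by
  classical
  have h1 : (Pᶜ.powersetCard (t - P.card)).card = (N - P.card).choose (t - P.card) := by
    rw [card_powersetCard, card_compl, Fintype.card_fin]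
  rw [← h1]
  symm
  apply card_bij (fun S _ => S ∪ P)
  · intro S hS
    rw [mem_powersetCard] at hS
    rw [mem_filter, mem_powersetCard]
    refine ⟨⟨subset_univ _, ?_⟩, subset_union_right⟩
    rw [card_union_of_disjoint, hS.2]
    · omega
    · exact disjoint_left.2 fun x hx hxP => (mem_compl.1 (hS.1 hx)) hxP
  · intro S hS S' hS' h
    rw [mem_powersetCard] at hS hS'
    ext x
    by_cases hx : x ∈ P
    · constructor
      · intro h2
        exact absurd hx (mem_compl.1 (hS.1 h2))
      · intro h2
        exact absurd hx (mem_compl.1 (hS'.1 h2))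
    · have h3 : x ∈ S ∪ P ↔ x ∈ S' ∪ P := by
        have h4 : S ∪ P = S' ∪ P := h
        rw [h4]
      rw [mem_union, mem_union] at h3
      tauto
  · intro S hS
    rw [mem_filter, mem_powersetCard] at hS
    refine ⟨S \ P, ?_, ?_⟩
    · rw [mem_powersetCard]
      refine ⟨fun x hx => mem_compl.2 (mem_sdiff.1 hx).2, ?_⟩
      rw [card_sdiff_of_subset hS.2, hS.1.2]
    · exact sdiff_union_of_subset hS.2

theorem sum_swap {N : ℕ} (t k : ℕ) (g : Finset (Fin N) → ℝ) :
    ∑ S ∈ (univ : Finset (Fin N)).powersetCard t, ∑ P ∈ S.powersetCard k, g P =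
      ∑ P ∈ (univ : Finset (Fin N)).powersetCard k,
        ((((univ : Finset (Fin N)).powersetCard t).filter (fun S => P ⊆ S)).card : ℝ) * g P := by
  classical
  have h1 : ∀ S ∈ (univ : Finset (Fin N)).powersetCard t, ∑ P ∈ S.powersetCard k, g P =
      ∑ P ∈ (univ : Finset (Fin N)).powersetCard k, if P ⊆ S then g P else 0 := by
    intro S _
    rw [← sum_filter]
    apply sum_congr _ fun _ _ => rfl
    ext P
    rw [mem_powersetCard, mem_filter, mem_powersetCard]
    constructor
    · rintro ⟨h2, h3⟩
      exact ⟨⟨subset_univ _, h3⟩, h2⟩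
    · rintro ⟨⟨-, h3⟩, h2⟩
      exact ⟨h2, h3⟩
  rw [sum_congr rfl h1, sum_comm]
  apply sum_congr rfl
  intro P _
  rw [← sum_filter, sum_const, nsmul_eq_mul]

theorem sum_one {N : ℕ} (S : Finset (Fin N)) (f : Fin N → ℝ) :
    ∑ i ∈ S, f i = ∑ P ∈ S.powersetCard 1, ∑ i ∈ P, f i := by
  rw [powersetCard_one, sum_map]
  simp

theorem t : Pool.Agent.Helper70.EH.G_UA := by
  intro N t f g htN
  constructor
  · rw [sum_congr rfl (fun S _ => sum_one S f), sum_one univ f, sum_swap]
    rcases Nat.eq_zero_or_pos t with rfl | ht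
    · rw [Nat.cast_zero, zero_mul, zero_mul, mul_eq_zero]
      right
      apply sum_eq_zero
      intro P hP
      rw [mem_powersetCard] at hP
      have : ((univ : Finset (Fin N)).powersetCard 0).filter (fun S => P ⊆ S) = ∅ := by
        rw [filter_eq_empty_iff]
        intro S hS hPS
        rw [mem_powersetCard] at hS
        have := card_le_card hPS
        omega
      rw [this, card_empty, Nat.cast_zero, zero_mul]
    · have h1 : ∀ P ∈ (univ : Finset (Fin N)).powersetCard 1,
          ((((univ : Finset (Fin N)).powersetCard t).filter (fun S => P ⊆ S)).card : ℝ) *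
            ∑ i ∈ P, f i = ((N - 1).choose (t - 1) : ℝ) * ∑ i ∈ P, f i := by
        intro P hP
        rw [mem_powersetCard] at hP
        rw [count t P (by omega), hP.2]
      rw [sum_congr rfl h1, ← mul_sum, ← mul_assoc]
      congr 1
      obtain ⟨n, rfl⟩ : ∃ n, N = n + 1 := ⟨N - 1, by omega⟩
      obtain ⟨s, rfl⟩ : ∃ s, t = s + 1 := ⟨t - 1, by omega⟩
      have h2 := Nat.add_one_mul_choose_eq n s
      rw [Nat.add_sub_cancel, Nat.add_sub_cancel]
      have h3 : ((n + 1 : ℕ) : ℝ) * (n.choose s : ℝ) = ((n + 1).choose (s + 1) : ℝ) * ((s + 1 : ℕ) : ℝ) := by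
        exact_mod_cast h2
      rw [h3]
      ring
  · rw [sum_swap]
    rcases Nat.lt_or_ge t 2 with ht | ht
    · have h0 : (t : ℝ) * ((t : ℝ) - 1) = 0 := by
        interval_cases t <;> norm_num
      rw [h0, zero_mul, zero_mul, mul_eq_zero]
      right
      apply sum_eq_zero
      intro P hP
      rw [mem_powersetCard] at hP
      have : ((univ : Finset (Fin N)).powersetCard t).filter (fun S => P ⊆ S) = ∅ := by
        rw [filter_eq_empty_iff]
        intro S hS hPS
        rw [mem_powersetCard] at hS
        have := card_le_card hPS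
        omega
      rw [this, card_empty, Nat.cast_zero, zero_mul]
    · have h1 : ∀ P ∈ (univ : Finset (Fin N)).powersetCard 2,
          ((((univ : Finset (Fin N)).powersetCard t).filter (fun S => P ⊆ S)).card : ℝ) *
            g P = ((N - 2).choose (t - 2) : ℝ) * g P := by
        intro P hP
        rw [mem_powersetCard] at hP
        rw [count t P (by omega), hP.2]
      rw [sum_congr rfl h1, ← mul_sum, ← mul_assoc]
      congr 1
      obtain ⟨n, rfl⟩ : ∃ n, N = n + 2 := ⟨N - 2, by omega⟩
      obtain ⟨s, rfl⟩ : ∃ s, t = s + 2 := ⟨t - 2, by omega⟩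
      have h2 := Nat.add_one_mul_choose_eq n s
      have h4 := Nat.add_one_mul_choose_eq (n + 1) (s + 1)
      rw [Nat.add_sub_cancel, Nat.add_sub_cancel]
      have h3 : ((n : ℝ) + 1) * (n.choose s : ℝ) = ((n + 1).choose (s + 1) : ℝ) * ((s : ℝ) + 1) := by
        exact_mod_cast h2
      have h5 : ((n : ℝ) + 1 + 1) * ((n + 1).choose (s + 1) : ℝ) =
          ((n + 2).choose (s + 2) : ℝ) * ((s : ℝ) + 1 + 1) := by
        exact_mod_cast h4
      push_cast
      linear_combination ((n : ℝ) + 2) * h3 + ((s : ℝ) + 1) * h5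

end Pool.Agent.Helper9.EH.UA
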